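import Pool.Agent.Helper31.CY.St1

/-!
# Project CY, module LEG: legs of the meridian network
-/

set_option autoImplicit false

open Set Topology Filter

namespace Pool.Agent.Helper12.CY

open Pool.Agent.Helper31.CY

private theorem box_iff (q x : ℝ × ℝ) (ε : ℝ) : x ∈ box q ε ↔ dist x q < ε := by
  simp only [box, mem_ofPred_eq, Prod.dist_eq, Real.dist_eq, max_lt_iff]

/-- a function with positive derivative at zero -/
private theorem scal (f f' : ℝ → ℝ) (δ : ℝ) (hδ : 0 < δ)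
    (hf : ∀ t : ℝ, |t| < δ → HasDerivAt f (f' t) t) (hc : ContinuousOn f' (Ioo (-δ) δ))
    (h0 : 0 < f' 0) :
    ∃ δ' : ℝ, 0 < δ' ∧ δ' ≤ δ ∧ (∀ t, 0 ≤ t → t < δ' → f 0 ≤ f t) ∧
      ∃ η : ℝ, 0 < η ∧ ∀ y, f 0 ≤ y → y < f 0 + η → ∃ t, 0 ≤ t ∧ t < δ' ∧ f t = y := by
  have hc0 : ContinuousAt f' 0 :=
    hc.continuousAt (Ioo_mem_nhds (by linarith) hδ)
  obtain ⟨δ1, hδ1, hpos⟩ := Metric.eventually_nhds_iff.1 (hc0.eventually_const_lt h0)
  have hd : 0 < min δ δ1 := lt_min hδ hδ1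
  have hcont : ∀ b, b < min δ δ1 → ContinuousOn f (Icc 0 b) := by
    intro b hb t ht
    exact (hf t (by rw [abs_of_nonneg ht.1]; exact ht.2.trans_lt (hb.trans_le (min_le_left _ _)))).continuousAt.continuousWithinAt
  have hlt : ∀ t, 0 < t → t < min δ δ1 → f 0 < f t := by
    intro t ht htd
    obtain ⟨c, hc1, hc2⟩ := exists_hasDerivAt_eq_slope f f' ht (hcont t htd)
      (fun x hx => hf x (by
        rw [abs_of_pos hx.1]; exact hx.2.trans (htd.trans_le (min_le_left _ _))))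
    have h1 : 0 < f' c := hpos (by
      rw [Real.dist_eq, sub_zero, abs_of_pos hc1.1]
      exact hc1.2.trans (htd.trans_le (min_le_right _ _)))
    rw [hc2, sub_zero] at h1
    have h2 := mul_pos h1 ht
    rw [div_mul_cancel₀ _ ht.ne'] at h2
    linarith
  refine ⟨min δ δ1, hd, min_le_left _ _, ?_, f (min δ δ1 / 2) - f 0, ?_, ?_⟩
  · intro t ht htd
    rcases ht.eq_or_lt with h | h
    · rw [← h]
    · exact (hlt t h htd).le
  · have := hlt (min δ δ1 / 2) (by linarith) (by linarith)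
    linarith
  · intro y hy1 hy2
    obtain ⟨t, ht, hty⟩ := intermediate_value_Icc (by linarith : (0 : ℝ) ≤ min δ δ1 / 2)
      (hcont (min δ δ1 / 2) (by linarith)) ⟨hy1, by linarith⟩
    exact ⟨t, ht.1, ht.2.trans_lt (by linarith), hty⟩

private theorem path (α α' : ℝ → ℝ × ℝ) (δ : ℝ) (hδ : 0 < δ)
    (hα : ∀ t : ℝ, |t| < δ → HasDerivAt α (α' t) t) (hc : ContinuousOn α' (Ioo (-δ) δ))
    (h0 : α' 0 ≠ 0)
    (hd : ((α' 0).2 ≠ 0 ∧ ∀ t : ℝ, 0 ≤ t → t < δ →
      (α t).1 = cat (α 0).1 ((α' 0).1 / (α' 0).2) ((α t).2 - (α 0).2)) ∨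
      ((α' 0).2 = 0 ∧ ∀ t : ℝ, 0 ≤ t → t < δ → (α t).2 = (α 0).2)) :
    ∃ δ' : ℝ, 0 < δ' ∧ δ' ≤ δ ∧ (∀ t, 0 ≤ t → t < δ' → onLeg (α 0) (α' 0) (α t)) ∧
      ∃ ε : ℝ, 0 < ε ∧ ∀ x ∈ box (α 0) ε, onLeg (α 0) (α' 0) x →
        ∃ t, 0 ≤ t ∧ t < δ' ∧ α t = x := by
  have h1 : ∀ t : ℝ, |t| < δ → HasDerivAt (fun s => (α s).1) (α' t).1 t := fun t ht =>
    (hα t ht).fst
  have h2 : ∀ t : ℝ, |t| < δ → HasDerivAt (fun s => (α s).2) (α' t).2 t := fun t ht =>
    (hα t ht).snd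
  have c1 : ContinuousOn (fun t => (α' t).1) (Ioo (-δ) δ) := continuous_fst.comp_continuousOn hc
  have c2 : ContinuousOn (fun t => (α' t).2) (Ioo (-δ) δ) := continuous_snd.comp_continuousOn hc
  rcases lt_trichotomy (α' 0).2 0 with hv | hv | hv
  · rcases hd with ⟨-, hd⟩ | ⟨hd, -⟩
    swap
    · exact absurd hd hv.ne
    obtain ⟨δ', hδ', hle, hm, η, hη, hs⟩ := scal (fun t => -(α t).2) (fun t => -(α' t).2) δ hδ
      (fun t ht => (h2 t ht).neg) c2.neg (by simpa using hv)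
    refine ⟨δ', hδ', hle, ?_, η, hη, ?_⟩
    · intro t ht htd
      refine Or.inr (Or.inl ⟨hv, ?_, hd t ht (htd.trans_le hle)⟩)
      have := hm t ht htd
      linarith
    · intro x hx hl
      rcases hl with ⟨hl, -⟩ | ⟨-, hl1, hl2⟩ | ⟨hl, -⟩
      · exact absurd hl (by linarith)
      · have hx2 := abs_lt.1 hx.2
        obtain ⟨t, ht, htd, hty⟩ := hs (-x.2) (by linarith) (by linarith)
        refine ⟨t, ht, htd, ?_⟩
        have h3 : (α t).2 = x.2 := by simpa using hty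
        refine Prod.ext ?_ h3
        rw [hd t ht (htd.trans_le hle), h3, hl2]
      · exact absurd hl hv.ne
  · rcases hd with ⟨hd, -⟩ | ⟨-, hd⟩
    · exact absurd hv hd
    have hv1 : (α' 0).1 ≠ 0 := fun h => h0 (Prod.ext h hv)
    rcases lt_or_gt_of_ne hv1 with hv1 | hv1
    · obtain ⟨δ', hδ', hle, hm, η, hη, hs⟩ := scal (fun t => -(α t).1) (fun t => -(α' t).1) δ hδ
        (fun t ht => (h1 t ht).neg) c1.neg (by simpa using hv1)
      refine ⟨δ', hδ', hle, ?_, η, hη, ?_⟩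
      · intro t ht htd
        refine Or.inr (Or.inr ⟨hv, hd t ht (htd.trans_le hle), ?_⟩)
        have := hm t ht htd
        exact mul_nonneg_of_nonpos_of_nonpos (by linarith) hv1.le
      · intro x hx hl
        rcases hl with ⟨hl, -⟩ | ⟨hl, -⟩ | ⟨-, hl1, hl2⟩
        · exact absurd hl (by linarith)
        · exact absurd hl (by linarith)
        · have hx1 := abs_lt.1 hx.1
          have hx3 : x.1 - (α 0).1 ≤ 0 := by
            by_contra h
            push Not at h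
            have := mul_neg_of_pos_of_neg h hv1
            linarith
          obtain ⟨t, ht, htd, hty⟩ := hs (-x.1) (by linarith) (by linarith)
          refine ⟨t, ht, htd, Prod.ext (by simpa using hty) ?_⟩
          rw [hd t ht (htd.trans_le hle), hl1]
    · obtain ⟨δ', hδ', hle, hm, η, hη, hs⟩ := scal (fun t => (α t).1) (fun t => (α' t).1) δ hδ
        h1 c1 hv1
      refine ⟨δ', hδ', hle, ?_, η, hη, ?_⟩
      · intro t ht htd
        refine Or.inr (Or.inr ⟨hv, hd t ht (htd.trans_le hle), ?_⟩)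
        have := hm t ht htd
        exact mul_nonneg (by linarith) hv1.le
      · intro x hx hl
        rcases hl with ⟨hl, -⟩ | ⟨hl, -⟩ | ⟨-, hl1, hl2⟩
        · exact absurd hl (by linarith)
        · exact absurd hl (by linarith)
        · have hx1 := abs_lt.1 hx.1
          have hx3 : 0 ≤ x.1 - (α 0).1 := by
            by_contra h
            push Not at h
            have := mul_neg_of_neg_of_pos h hv1
            linarith
          obtain ⟨t, ht, htd, hty⟩ := hs x.1 (by linarith) (by linarith)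
          refine ⟨t, ht, htd, Prod.ext (by simpa using hty) ?_⟩
          rw [hd t ht (htd.trans_le hle), hl1]
  · rcases hd with ⟨-, hd⟩ | ⟨hd, -⟩
    swap
    · exact absurd hd hv.ne'
    obtain ⟨δ', hδ', hle, hm, η, hη, hs⟩ := scal (fun t => (α t).2) (fun t => (α' t).2) δ hδ
      h2 c2 hv
    refine ⟨δ', hδ', hle, ?_, η, hη, ?_⟩
    · intro t ht htd
      exact Or.inl ⟨hv, hm t ht htd, hd t ht (htd.trans_le hle)⟩
    · intro x hx hl
      rcases hl with ⟨-, hl1, hl2⟩ | ⟨hl, -⟩ | ⟨hl, -⟩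
      · have hx2 := abs_lt.1 hx.2
        obtain ⟨t, ht, htd, hty⟩ := hs x.2 (by linarith) (by linarith)
        refine ⟨t, ht, htd, ?_⟩
        have h3 : (α t).2 = x.2 := by simpa using hty
        refine Prod.ext ?_ h3
        rw [hd t ht (htd.trans_le hle), h3, hl2]
      · exact absurd hl (by linarith)
      · exact absurd hl hv.ne'

theorem hLEG (hPTH : StPTH) : StLEG := by
  intro N q k d g hray hq hdne hnear
  obtain ⟨U, hU, hqU, hg, hg0, hinj, hN⟩ := hray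
  obtain ⟨ε0, hε0, hnear⟩ := hnear
  have hgq : ContDiffAt ℝ 1 g q := hg.contDiffAt (hU.mem_nhds hqU)
  have hker : ∀ v w, fderiv ℝ g q v = fderiv ℝ g q w → v = w := by
    intro v w h
    by_contra hvw
    exact hinj (v - w) (sub_ne_zero.2 hvw) (by rw [map_sub, h, sub_self])
  let A : (ℝ × ℝ) ≃L[ℝ] (ℝ × ℝ) :=
    (LinearEquiv.ofInjectiveEndo (fderiv ℝ g q : (ℝ × ℝ) →ₗ[ℝ] (ℝ × ℝ))
      (fun v w h => hker v w h)).toContinuousLinearEquiv
  have hA : (A : (ℝ × ℝ) →L[ℝ] (ℝ × ℝ)) = fderiv ℝ g q := by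
    rfl
  have hg' : HasFDerivAt g (A : (ℝ × ℝ) →L[ℝ] (ℝ × ℝ)) q := by
    rw [hA]
    exact (hgq.differentiableAt one_ne_zero).hasFDerivAt
  have hs := hgq.hasStrictFDerivAt' hg' one_ne_zero
  set γ : ℝ × ℝ → ℝ × ℝ := hs.localInverse g A q with hγ
  have hγ1 : ContDiffAt ℝ 1 γ (g q) := hgq.to_localInverse hg' one_ne_zero
  have hγ0 : γ (g q) = q := hs.localInverse_apply_image
  have hr : ∀ᶠ y in 𝓝 (g q), g (γ y) = y := hs.eventually_right_inverse
  have hl : ∀ᶠ x in 𝓝 q, γ (g x) = x := hs.eventually_left_inverse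
  rw [hg0] at hγ1 hγ0 hr
  have hγc : Tendsto γ (𝓝 0) (𝓝 q) := by
    have := hγ1.continuousAt.tendsto
    rwa [hγ0] at this
  have hE : ∀ᶠ y in 𝓝 (0 : ℝ × ℝ), ContDiffAt ℝ 1 γ y ∧ g (γ y) = y ∧ γ y ∈ U ∧
      γ y ∈ box q ε0 ∧ 0 < (γ y).1 := by
    refine (hγ1.eventually (by simp)).and (hr.and ((hγc.eventually (hU.mem_nhds hqU)).and
      ((hγc.eventually (p := fun x => x ∈ box q ε0) ?_).and
        (hγc.eventually (p := fun x => 0 < x.1) ?_))))
    · filter_upwards [Metric.ball_mem_nhds q hε0] with x hx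
      exact (box_iff q x ε0).2 hx
    · exact continuous_fst.continuousAt.eventually_const_lt hq
  obtain ⟨ρ, hρ, hE⟩ := Metric.eventually_nhds_iff.1 hE
  have hball : ∀ y : ℝ × ℝ, ‖y‖ < ρ → ContDiffAt ℝ 1 γ y ∧ g (γ y) = y ∧ γ y ∈ U ∧
      γ y ∈ box q ε0 ∧ 0 < (γ y).1 := fun y hy => hE (by rwa [dist_zero_right])
  have hcomp : ∀ y : ℝ × ℝ, ‖y‖ < ρ → ∀ w, fderiv ℝ g (γ y) (fderiv ℝ γ y w) = w := by
    intro y hy w
    obtain ⟨h1, h2, h3, -, -⟩ := hball y hy
    have h4 : HasFDerivAt γ (fderiv ℝ γ y) y := (h1.differentiableAt one_ne_zero).hasFDerivAt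
    have h5 : HasFDerivAt g (fderiv ℝ g (γ y)) (γ y) :=
      ((hg.contDiffAt (hU.mem_nhds h3)).differentiableAt one_ne_zero).hasFDerivAt
    have h6 := h5.comp y h4
    have h7 : (g ∘ γ) =ᶠ[𝓝 y] id := by
      have : ∀ᶠ z in 𝓝 y, ‖z‖ < ρ := continuous_norm.continuousAt.eventually_lt_const hy
      filter_upwards [this] with z hz
      exact (hball z hz).2.1
    have h8 : HasFDerivAt (g ∘ γ) (ContinuousLinearMap.id ℝ (ℝ × ℝ)) y :=
      (hasFDerivAt_id y).congr_of_eventuallyEq h7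
    have h9 := h6.unique h8
    have := congrArg (fun L : (ℝ × ℝ) →L[ℝ] (ℝ × ℝ) => L w) h9
    simpa using this
  have h0ρ : ‖(0 : ℝ × ℝ)‖ < ρ := by rwa [norm_zero]
  refine ⟨fun i => fderiv ℝ γ 0 (d i), fun i => ?_, ?_⟩
  · have := hcomp 0 h0ρ (d i)
    rwa [hγ0] at this
  -- one leg
  have hleg : ∀ i, ∃ δ' : ℝ, 0 < δ' ∧ (∀ t, 0 ≤ t → t < δ' →
      onLeg q (fderiv ℝ γ 0 (d i)) (γ (t • d i)) ∧ ‖t • d i‖ < ρ) ∧
      ∃ ε : ℝ, 0 < ε ∧ ∀ x ∈ box q ε, onLeg q (fderiv ℝ γ 0 (d i)) x →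
        ∃ t, 0 ≤ t ∧ t < δ' ∧ γ (t • d i) = x := by
    intro i
    have hdi : 0 < ‖d i‖ := norm_pos_iff.2 (hdne i)
    have hδ : 0 < ρ / ‖d i‖ := by positivity
    have hn : ∀ t : ℝ, |t| < ρ / ‖d i‖ → ‖t • d i‖ < ρ := by
      intro t ht
      rw [norm_smul, Real.norm_eq_abs]
      rwa [lt_div_iff₀ hdi] at ht
    have hder : ∀ t : ℝ, |t| < ρ / ‖d i‖ →
        HasDerivAt (fun s : ℝ => γ (s • d i)) (fderiv ℝ γ (t • d i) (d i)) t := by
      intro t ht
      have h1 := ((hball _ (hn t ht)).1.differentiableAt one_ne_zero).hasFDerivAt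
      have h2 : HasDerivAt (fun s : ℝ => s • d i) (d i) t := by
        simpa using (hasDerivAt_id t).smul_const (d i)
      exact h1.comp_hasDerivAt t h2
    have hcont : ContinuousOn (fun t : ℝ => fderiv ℝ γ (t • d i) (d i))
        (Ioo (-(ρ / ‖d i‖)) (ρ / ‖d i‖)) := by
      intro t ht
      have h1 := (hball _ (hn t (abs_lt.2 ht))).1
      have h2 : ContinuousAt (fderiv ℝ γ) (t • d i) :=
        (h1.fderiv_right (m := 0) (by norm_num)).continuousAt
      have h3 : ContinuousAt (fun s : ℝ => s • d i) t := by fun_prop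
      have h4 : ContinuousAt (fun s : ℝ => fderiv ℝ γ (s • d i)) t :=
        ContinuousAt.comp (f := fun s : ℝ => s • d i) (x := t) h2 h3
      exact (h4.clm_apply continuousAt_const).continuousWithinAt
    have hne : ∀ t : ℝ, |t| < ρ / ‖d i‖ → fderiv ℝ γ (t • d i) (d i) ≠ 0 := by
      intro t ht h
      have := hcomp _ (hn t ht) (d i)
      rw [h, map_zero] at this
      exact hdne i this.symm
    have hmem : ∀ t : ℝ, 0 ≤ t → t < ρ / ‖d i‖ → γ (t • d i) ∈ N := by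
      intro t ht htd
      obtain ⟨-, h2, h3, -, -⟩ := hball _ (hn t (by rwa [abs_of_nonneg ht]))
      exact (hN _ h3).2 ⟨i, t, ht, h2⟩
    have hP := hPTH N (fun s : ℝ => γ (s • d i)) (fun s : ℝ => fderiv ℝ γ (s • d i) (d i))
      (ρ / ‖d i‖) hδ hder hcont hne (by
        simp only [zero_smul, hγ0]; exact hq) (by
        intro t ht htd
        obtain ⟨-, h2, h3, h4, h5⟩ := hball _ (hn t (by rwa [abs_of_pos ht]))
        refine ⟨h5, ?_, ?_⟩
        · filter_upwards [Ioo_mem_nhds ht htd] with s hs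
          exact hmem s hs.1.le hs.2
        · refine hnear _ h4 (hmem t ht.le htd) ?_
          intro h
          have h2' := h2
          rw [h, hg0] at h2'
          rcases smul_eq_zero.1 h2'.symm with h6 | h6
          · exact ht.ne' h6
          · exact hdne i h6)
    obtain ⟨δ', hδ', hle, hon, ε, hε, hex⟩ := path (fun s : ℝ => γ (s • d i))
      (fun s : ℝ => fderiv ℝ γ (s • d i) (d i)) (ρ / ‖d i‖) hδ hder hcont
      (hne 0 (by rwa [abs_zero])) hP
    simp only [zero_smul, hγ0] at hon hex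
    refine ⟨δ', hδ', fun t ht htd => ⟨hon t ht htd, hn t ?_⟩, ε, hε, hex⟩
    rw [abs_of_nonneg ht]
    exact htd.trans_le hle
  choose δ' hδ' hon ε hε hex using hleg
  have hfin : ∀ᶠ x in 𝓝 q, x ∈ N ↔ ∃ i, onLeg q (fderiv ℝ γ 0 (d i)) x := by
    have e1 : ∀ᶠ x in 𝓝 q, ∀ i, x ∈ box q (ε i) := by
      rw [eventually_all]
      intro i
      filter_upwards [Metric.ball_mem_nhds q (hε i)] with x hx
      exact (box_iff q x (ε i)).2 hx
    have e2 : ∀ᶠ x in 𝓝 q, ∀ i, ‖g x‖ < δ' i * ‖d i‖ := by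
      rw [eventually_all]
      intro i
      have hc : ContinuousAt (fun x => ‖g x‖) q := hgq.continuousAt.norm
      exact hc.eventually_lt_const (by
        simp only
        rw [hg0, norm_zero]
        exact mul_pos (hδ' i) (norm_pos_iff.2 (hdne i)))
    filter_upwards [e1, e2, hl, hU.mem_nhds hqU] with x h1 h2 h3 h4
    constructor
    · intro hx
      obtain ⟨i, t, ht, hgt⟩ := (hN x h4).1 hx
      refine ⟨i, ?_⟩
      have h5 := h2 i
      rw [hgt, norm_smul, Real.norm_eq_abs, abs_of_nonneg ht] at h5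
      have h6 : t < δ' i := lt_of_mul_lt_mul_right h5 (norm_nonneg _)
      have h7 := (hon i t ht h6).1
      rwa [← hgt, h3] at h7
    · rintro ⟨i, hi⟩
      obtain ⟨t, ht, htd, rfl⟩ := hex i x (h1 i) hi
      have h5 := hball _ (hon i t ht htd).2
      exact (hN _ h5.2.2.1).2 ⟨i, t, ht, h5.2.1⟩
  obtain ⟨η, hη, hfin⟩ := Metric.eventually_nhds_iff.1 hfin
  exact ⟨η, hη, fun x hx => hfin ((box_iff q x η).1 hx)⟩

end Pool.Agent.Helper12.CY
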